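import Mathlib
import Pool.Agent.X124.SA.Fin

/-!
# The height inequality for points of degree at most two, a finite set of places containing finite
places, and almost every divisor

`C` is the projective line over `ℚ`, `S = {∞, p 0, ..., p (r - 1)}` with distinct primes `p i`. At
the infinite place `D` has the real points `α 0, ..., α (q - 1)`, at the place `p i` the points
`β i 0, ..., β i (n i - 1)` in `ℤ_[p i]`. For almost every `(α, β)` (Lebesgue and Haar measure) we
determine for which pairs `(κ, θ)`, `θ ≥ 0`, the inequality `m(D, x) ≤ κ h(x) + θ d(x) + O(1)` holds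
for all algebraic points `x` of degree at most two: it holds if `κ > 2` and `κ + 2 θ > 3`, and (if
`q ≥ 1`) it fails if `κ < 2` or `κ + 2 θ < 3`. The inequality of the problem is the case
`κ = 2 + ε`, `θ = 1`.

Proof. For a primitive integral polynomial `f` of degree at most two with discriminant `Δ` and a
place `v` let `λ_v(x) = |f(x)|_v / |f|_v` and `δ_v = |Δ|_v ^ (1 / 2) / |f|_v`. The set of `x` with
`λ_v(x) ≤ t` has measure at most `C t / δ_v` (at a finite place: `x` is within `t / δ_v` of a root in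
an algebraic closure). Hence the moment `∫ λ_v ^ (- s)`, `s < 1`, is at most `C δ_v ^ (- s)`. At
points of `D` at the same place `f` is small at two points at most, and if it is small at two then
`δ_v` is not small. So the integral of the product of all `λ_v ^ (- s)` over the points and the places
is, in this sense, at most a constant times the product of the `δ_v ^ (- s)`, i.e. of the part of the
discriminant outside `S`, and the sum over all `f`, with the weight `H(f) ^ (- 2 - ε)` times the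
inverse square root of the squarefree part of `Δ`, is finite.
-/

set_option autoImplicit false

namespace Pool.Agent.Results.MP_6f1c57_nt.AllPlacesGenericDivisor

open Polynomial IntermediateField MeasureTheory

/-- The absolute logarithmic height `(log M(f)) / deg f` of the roots of an irreducible primitive
`f` (`M` is the Mahler measure). -/
noncomputable def height (f : ℤ[X]) : ℝ :=
  Real.log (f.map (Int.castRingHom ℂ)).mahlerMeasure / f.natDegree

/-- The contribution of the infinite place to `m(D, x)`: the average over the conjugates `z` of `x`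
in `ℂ`, i.e. the roots of `f`, of `∑_j log (max(1,|z|) max(1,|α j|) / |z - α j|)`. -/
noncomputable def proxInf {q : ℕ} (α : Fin q → ℝ) (f : ℤ[X]) : ℝ :=
  ((f.map (Int.castRingHom ℂ)).roots.map fun z =>
    ∑ j, Real.log (max 1 ‖z‖ * max 1 |α j| / ‖z - (α j : ℂ)‖)).sum / f.natDegree

/-- The contribution of the place `p` to `m(D, x)`: the average over the conjugates `z` of `x` in the
algebraic closure of `ℚ_[p]`, i.e. the roots of `f`, of `∑_j log (max(1,|z|) / |z - β j|)`, where
`|·|` is the `p`-adic absolute value with `|p| = 1 / p` (and `max(1,|β j|) = 1`). -/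
noncomputable def proxFin (p : ℕ) [Fact p.Prime] {n : ℕ} (β : Fin n → ℤ_[p]) (f : ℤ[X]) : ℝ :=
  ((f.map (Int.castRingHom (PadicAlgCl p))).roots.map fun z =>
    ∑ j, Real.log (max 1 ‖z‖ / ‖z - algebraMap ℚ_[p] (PadicAlgCl p) (β j : ℚ_[p])‖)).sum /
      f.natDegree

open Classical in
/-- The logarithmic discriminant `d(x)` of the field `ℚ(x)`. -/
noncomputable def logDisc (x : ℂ) : ℝ :=
  if _ : NumberField ℚ⟮x⟯ then
    Real.log |(NumberField.discr ℚ⟮x⟯ : ℝ)| / Module.finrank ℚ ℚ⟮x⟯ else 0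

/-- `x` is an algebraic number of degree at most two with minimal polynomial `f` over `ℤ`. -/
def Pt (x : ℂ) (f : ℤ[X]) : Prop :=
  Irreducible f ∧ (f.natDegree = 1 ∨ f.natDegree = 2) ∧ aeval x f = 0

section

variable {q r : ℕ} (p : Fin r → ℕ) [∀ i, Fact (p i).Prime] {n : Fin r → ℕ}

/-- `m(D, x)`: the sum over the places of `S = {∞, p 0, ..., p (r - 1)}`. -/
noncomputable def proximity (α : Fin q → ℝ) (β : ∀ i, Fin (n i) → ℤ_[p i]) (f : ℤ[X]) : ℝ :=
  proxInf α f + ∑ i, proxFin (p i) (β i) f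

/-- No conjugate of a root of `f` is a point of `D`, at all places of `S`. -/
def Off (α : Fin q → ℝ) (β : ∀ i, Fin (n i) → ℤ_[p i]) (f : ℤ[X]) : Prop :=
  (∀ j, aeval (α j) f ≠ 0) ∧ ∀ i j, aeval (β i j) f ≠ 0

/-- `m(D, x) ≤ κ h(x) + θ d(x) + C` for all `x` of degree at most two; none of them is in `D`. -/
def Holds (α : Fin q → ℝ) (β : ∀ i, Fin (n i) → ℤ_[p i]) (κ θ : ℝ) : Prop :=
  ∃ C : ℝ, ∀ (x : ℂ) (f : ℤ[X]), Pt x f → Off p α β f ∧
    proximity p α β f ≤ κ * height f + θ * logDisc x + C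

/-- For every `C` and `H` there is an `x` of degree at most two, not in `D`, of height at least `H`
with `m(D, x) > κ h(x) + θ d(x) + C`. -/
def Fails (α : Fin q → ℝ) (β : ∀ i, Fin (n i) → ℤ_[p i]) (κ θ : ℝ) : Prop :=
  ∀ C H : ℝ, ∃ (x : ℂ) (f : ℤ[X]), Pt x f ∧ Off p α β f ∧ H ≤ height f ∧
    κ * height f + θ * logDisc x + C < proximity p α β f

end

/-- The Borel `σ`-algebra of the `p`-adic integers. -/
@[reducible] noncomputable def borelZ (p : ℕ) [Fact p.Prime] : MeasurableSpace ℤ_[p] := borel _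

attribute [local instance] borelZ

theorem borelSpaceZ (p : ℕ) [Fact p.Prime] : BorelSpace ℤ_[p] := ⟨rfl⟩

attribute [local instance] borelSpaceZ

/-- The Haar probability measure of the `p`-adic integers. -/
noncomputable def haar (p : ℕ) [Fact p.Prime] : Measure ℤ_[p] := Measure.addHaarMeasure ⊤

/-- The product of the Lebesgue measure of `ℝ ^ q` and the Haar measures of the
`ℤ_[p i] ^ (n i)`. -/
noncomputable def vol (q : ℕ) {r : ℕ} (p : Fin r → ℕ) [∀ i, Fact (p i).Prime] (n : Fin r → ℕ) :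
    Measure ((Fin q → ℝ) × (∀ i, Fin (n i) → ℤ_[p i])) :=
  (volume : Measure (Fin q → ℝ)).prod (Measure.pi fun i => Measure.pi fun _ : Fin (n i) => haar (p i))

open Pool.Agent.X124.MV Pool.Agent.X124.SA Pool.Agent.H990R4.VJ

section

variable {q r : ℕ} {p : Fin r → ℕ} [∀ i, Fact (p i).Prime] {n : Fin r → ℕ}

lemma holds {P : (Fin q → ℝ) × (∀ i, Fin (n i) → ℤ_[p i])} (h : GoodS p n P) (κ θ : ℝ)
    (hθ : 0 ≤ θ) (h1 : 2 < κ) (h2 : 3 < κ + 2 * θ) : Holds p P.1 P.2 κ θ := by
  set ε : ℝ := min (κ - 2) (κ + 2 * θ - 3) with hε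
  have hε0 : 0 < ε := lt_min (by linarith) (by linarith)
  have hε1 : ε ≤ κ - 2 := min_le_left _ _
  have hε2 : ε ≤ κ + 2 * θ - 3 := min_le_right _ _
  obtain ⟨C1, hC1⟩ := all_pt h ε hε0
  refine ⟨|C1| + Real.log 80, fun x f hf => ?_⟩
  obtain ⟨hirr, hd, hx⟩ := hf
  obtain ⟨k1, k2, h3⟩ := hC1 x f hirr hd hx
  refine ⟨⟨k1, k2⟩, ?_⟩
  have hL : 0 ≤ Real.log (mm f) := Real.log_nonneg (one_le_mm hirr.ne_zero)
  have hl80 : 0 ≤ Real.log 80 := Real.log_nonneg (by norm_num)
  have a1 := le_abs_self C1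
  have a3 := abs_nonneg C1
  have hlD : 0 ≤ lD x := lD_nonneg x
  have hprox : proximity p P.1 P.2 f = (((f.map (Int.castRingHom ℂ)).roots.map fun z =>
        ∑ j, Real.log (max 1 ‖z‖ * max 1 |P.1 j| / ‖z - (P.1 j : ℂ)‖)).sum +
      ∑ i, ((f.map (Int.castRingHom (PadicAlgCl (p i)))).roots.map fun z =>
        ∑ j, Real.log (max 1 ‖z‖ /
          ‖z - algebraMap ℚ_[p i] (PadicAlgCl (p i)) (P.2 i j : ℚ_[p i])‖)).sum) /
      f.natDegree := by
    unfold proximity proxInf proxFin
    rw [add_div, Finset.sum_div]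
  rcases hd with hd | hd
  · have h4 : height f = Real.log (mm f) := by
      unfold height mm
      rw [hd]; simp
    have h0 : lD x = 0 := lD_lin f hd x hx
    have h5 : proximity p P.1 P.2 f ≤ (2 + ε) * Real.log (mm f) + C1 := by
      rw [hprox, hd, Nat.cast_one, div_one]
      rw [h0, add_zero] at h3
      exact h3
    have h6 : (2 + ε) * Real.log (mm f) ≤ κ * Real.log (mm f) :=
      mul_le_mul_of_nonneg_right (by linarith) hL
    have h7 : 0 ≤ θ * logDisc x := mul_nonneg hθ hlD
    rw [h4]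
    linarith
  · have h4 : height f = Real.log (mm f) / 2 := by
      unfold height mm
      rw [hd]; simp
    have h5 : proximity p P.1 P.2 f ≤ ((2 + ε) * Real.log (mm f) + lD x + C1) / 2 := by
      rw [hprox, hd]
      exact div_le_div_of_nonneg_right h3 (by norm_num)
    have h6 := lD_le f hirr hd x hx
    have h7 : lD x / 2 ≤ θ * lD x + max 0 (1 / 2 - θ) * (Real.log (mm f) + Real.log 80) := by
      rcases le_total (1 / 2 - θ) 0 with h8 | h8
      · rw [max_eq_left h8]
        nlinarith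
      · rw [max_eq_right h8]
        nlinarith
    have h9 : (2 + ε) * (Real.log (mm f) / 2) + max 0 (1 / 2 - θ) * Real.log (mm f) ≤
        κ * (Real.log (mm f) / 2) := by
      rcases le_total (1 / 2 - θ) 0 with h8 | h8
      · rw [max_eq_left h8]
        nlinarith
      · rw [max_eq_right h8]
        nlinarith
    have h10 : max 0 (1 / 2 - θ) * Real.log 80 ≤ Real.log 80 := by
      have : max 0 (1 / 2 - θ) ≤ 1 := max_le (by norm_num) (by linarith)
      nlinarith
    rw [h4]
    show proximity p P.1 P.2 f ≤ κ * (Real.log (mm f) / 2) + θ * lD x + _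
    nlinarith

lemma fails {P : (Fin q → ℝ) × (∀ i, Fin (n i) → ℤ_[p i])} (h : GoodS p n P) (hα : Good P.1)
    (hq : 1 ≤ q) (κ θ : ℝ) (hθ : 0 ≤ θ) (hor : κ < 2 ∨ κ + 2 * θ < 3) :
    Fails p P.1 P.2 κ θ := by
  obtain ⟨C0, hC0⟩ := all_pt h 1 one_pos
  intro C H
  have hprox : ∀ f : ℤ[X], ((f.map (Int.castRingHom ℂ)).roots.map fun z =>
        ∑ j, Real.log (max 1 ‖z‖ * max 1 |P.1 j| / ‖z - (P.1 j : ℂ)‖)).sum / f.natDegree ≤
        proximity p P.1 P.2 f := by
    intro f
    unfold proximity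
    have h1 : 0 ≤ ∑ i, proxFin (p i) (P.2 i) f :=
      Finset.sum_nonneg fun i _ => div_nonneg (prox_p_nonneg f (P.2 i)) (Nat.cast_nonneg _)
    have h2 : proxInf P.1 f = ((f.map (Int.castRingHom ℂ)).roots.map fun z =>
        ∑ j, Real.log (max 1 ‖z‖ * max 1 |P.1 j| / ‖z - (P.1 j : ℂ)‖)).sum / f.natDegree := rfl
    rw [h2]
    linarith
  rcases hor with hκ | hκ
  · obtain ⟨C1, hC1⟩ := lin_sharp hα (⟨0, hq⟩ : Fin q)
    obtain ⟨x, f, hirr, hd, hx, hR, hs⟩ := hC1 (max H ((C + C1) / (2 - κ) + 1))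
    obtain ⟨k1, k2, -⟩ := hC0 x f hirr (Or.inl hd) hx
    have h4 : height f = Real.log (mm f) := by
      unfold height mm
      rw [hd]; simp
    have h5 := hprox f
    rw [hd, Nat.cast_one, div_one] at h5
    refine ⟨x, f, ⟨hirr, Or.inl hd, hx⟩, ⟨k1, k2⟩, ?_, ?_⟩
    · rw [h4]
      exact (le_max_left _ _).trans hR
    · have h6 : logDisc x = 0 := lD_lin f hd x hx
      rw [h4, h6, mul_zero, add_zero]
      have h7 : (C + C1) / (2 - κ) < Real.log (mm f) := by
        have := (le_max_right _ _).trans hR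
        linarith
      rw [div_lt_iff₀ (by linarith)] at h7
      refine lt_of_lt_of_le ?_ h5
      refine lt_of_lt_of_le ?_ hs
      nlinarith
  · obtain ⟨C1, hC1⟩ := quad_sharp hα (⟨0, hq⟩ : Fin q)
    obtain ⟨x, f, hirr, hd, hx, hR, hs⟩ := hC1 (max (2 * H)
      ((2 * (θ * Real.log 80) + 2 * C + C1) / (3 - (κ + 2 * θ)) + 1))
    obtain ⟨k1, k2, -⟩ := hC0 x f hirr (Or.inr hd) hx
    have h4 : height f = Real.log (mm f) / 2 := by
      unfold height mm
      rw [hd]; simp
    have h5 := hprox f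
    rw [hd] at h5
    have h6 := lD_le f hirr hd x hx
    refine ⟨x, f, ⟨hirr, Or.inr hd, hx⟩, ⟨k1, k2⟩, ?_, ?_⟩
    · rw [h4]
      have := (le_max_left _ _).trans hR
      linarith
    · rw [h4]
      show κ * (Real.log (mm f) / 2) + θ * lD x + C < _
      have h7 : (2 * (θ * Real.log 80) + 2 * C + C1) / (3 - (κ + 2 * θ)) < Real.log (mm f) := by
        have := (le_max_right _ _).trans hR
        linarith
      rw [div_lt_iff₀ (by linarith)] at h7
      have h8 : θ * lD x ≤ θ * (Real.log (mm f) + Real.log 80) :=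
        mul_le_mul_of_nonneg_left h6 hθ
      refine lt_of_lt_of_le ?_ h5
      rw [lt_div_iff₀ (by norm_num)]
      refine lt_of_lt_of_le ?_ hs
      push_cast
      nlinarith

end

/-- **The height inequality for points of degree at most two, finitely many places and almost every
divisor.** Let `p 0, ..., p (r - 1)` be distinct primes. For almost every `(α, β)` and all real `κ`,
`θ` with `θ ≥ 0`: the inequality `m(D, x) ≤ κ h(x) + θ d(x) + O(1)` holds for the algebraic numbers
`x` of degree at most two if `κ > 2` and `κ + 2 θ > 3`; it fails if `q ≥ 1` and (`κ < 2` or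
`κ + 2 θ < 3`). -/
theorem result (q : ℕ) {r : ℕ} (p : Fin r → ℕ) [∀ i, Fact (p i).Prime]
    (hp : Function.Injective p) (n : Fin r → ℕ) :
    ∀ᵐ P ∂(vol q p n), ∀ κ θ : ℝ, 0 ≤ θ →
      (2 < κ → 3 < κ + 2 * θ → Holds p P.1 P.2 κ θ) ∧
      (1 ≤ q → (κ < 2 ∨ κ + 2 * θ < 3) → Fails p P.1 P.2 κ θ) := by
  have h := ae_goodS q p hp n
  have h' : ∀ᵐ P ∂(vol q p n), GoodS p n P ∧ Good P.1 := h
  filter_upwards [h'] with P hP κ θ hθ
  exact ⟨fun k1 k2 => holds hP.1 κ θ hθ k1 k2, fun k1 k2 => fails hP.1 hP.2 k1 κ θ hθ k2⟩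

end Pool.Agent.Results.MP_6f1c57_nt.AllPlacesGenericDivisor
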