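import Mathlib
import Pool.Agent.X124.MC.Sharp2

/-!
# The height inequality for points of degree at most two and almost every real divisor with
non-real points

`C` is the projective line over `ℚ`, `S = {∞}`,
`D = [α 0] + ... + [α (r - 1)] + ([β 0] + [conj (β 0)]) + ... + ([β (s - 1)] + [conj (β (s - 1))])`
with real numbers `α j` and complex numbers `β j`, `s ≥ 1`. For almost every `(α, β)` (Lebesgue
measure) we determine for which pairs `(κ, θ)`, `θ ≥ 0`, the inequality
`m(D, x) ≤ κ h(x) + θ d(x) + O(1)` holds for all algebraic points `x` of degree at most two: it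
holds if `κ > 2` and `κ + 2 θ > 3`, and it fails if `κ < 2` or `κ + 2 θ < 3`. The failure is proved
for every single `D` that has a non-real point and no point of degree at most two over `ℚ`.
The inequality of the problem is the case `κ = 2 + ε`, `θ = 1`.

Proof. If the value at `β` of the minimal polynomial `a X² + b X + c` of `x` is small, then the
discriminant is negative and `β` lies in one of two discs whose radius is the value divided by
`|a|`, where `|a|` is comparable to the height; one sums the areas over all polynomials, with a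
threshold that depends on the squarefree part of the discriminant. A polynomial is small at one
point of `D` only, apart from pairs of real points and conjugates; pairs of real points were
treated in `Pool.Agent.X124.MV`. The sharpness is a pigeonhole argument, for quadratic polynomials
and for Gaussian numbers; a polynomial that is small at a non-real number is irreducible.
-/

set_option autoImplicit false

namespace Pool.Agent.Results.MP_6f1c57_nt.AlmostEveryComplexDivisor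

open Polynomial IntermediateField MeasureTheory ComplexConjugate

/-- The absolute logarithmic height `(log M(f)) / deg f` of the roots of an irreducible primitive
`f` (`M` is the Mahler measure). -/
noncomputable def height (f : ℤ[X]) : ℝ :=
  Real.log (f.map (Int.castRingHom ℂ)).mahlerMeasure / f.natDegree

/-- `m(D, x)` for `D = ∑ [α j] + ∑ ([β j] + [conj (β j)])`: the average over the conjugates `z` of
`x`, i.e. the roots of `f`, of the sum over the points `w` of `D` of
`log (max(1,|z|) max(1,|w|) / |z - w|)`. -/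
noncomputable def proximity {r s : ℕ} (α : Fin r → ℝ) (β : Fin s → ℂ) (f : ℤ[X]) : ℝ :=
  ((f.map (Int.castRingHom ℂ)).roots.map fun z =>
    ∑ j, Real.log (max 1 ‖z‖ * max 1 |α j| / ‖z - (α j : ℂ)‖) +
    ∑ j, (Real.log (max 1 ‖z‖ * max 1 ‖β j‖ / ‖z - β j‖) +
      Real.log (max 1 ‖z‖ * max 1 ‖β j‖ / ‖z - conj (β j)‖))).sum / f.natDegree

open Classical in
/-- The logarithmic discriminant `d(x)` of the field `ℚ(x)`. -/
noncomputable def logDisc (x : ℂ) : ℝ :=
  if _ : NumberField ℚ⟮x⟯ then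
    Real.log |(NumberField.discr ℚ⟮x⟯ : ℝ)| / Module.finrank ℚ ℚ⟮x⟯ else 0

/-- `x` is an algebraic number of degree at most two with minimal polynomial `f` over `ℤ`. -/
def Pt (x : ℂ) (f : ℤ[X]) : Prop :=
  Irreducible f ∧ (f.natDegree = 1 ∨ f.natDegree = 2) ∧ aeval x f = 0

/-- The support of `D`. -/
def Supp {r s : ℕ} (α : Fin r → ℝ) (β : Fin s → ℂ) : Set ℂ :=
  {x | (∃ j, x = (α j : ℂ)) ∨ ∃ j, x = β j ∨ x = conj (β j)}

/-- `m(D, x) ≤ κ h(x) + θ d(x) + C` for all `x` of degree at most two; none of them is in `D`. -/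
def Holds {r s : ℕ} (α : Fin r → ℝ) (β : Fin s → ℂ) (κ θ : ℝ) : Prop :=
  ∃ C : ℝ, ∀ (x : ℂ) (f : ℤ[X]), Pt x f → x ∉ Supp α β ∧
    proximity α β f ≤ κ * height f + θ * logDisc x + C

/-- For every `C` and `H` there is an `x` of degree at most two, not in `D`, of height at least `H`
with `m(D, x) > κ h(x) + θ d(x) + C`. -/
def Fails {r s : ℕ} (α : Fin r → ℝ) (β : Fin s → ℂ) (κ θ : ℝ) : Prop :=
  ∀ C H : ℝ, ∃ (x : ℂ) (f : ℤ[X]), Pt x f ∧ x ∉ Supp α β ∧ H ≤ height f ∧
    κ * height f + θ * logDisc x + C < proximity α β f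

open Pool.Agent.X124.MV Pool.Agent.X124.MC Pool.Agent.H990R4.VJ

lemma prox_eq {r s : ℕ} (α : Fin r → ℝ) (β : Fin s → ℂ) (f : ℤ[X]) :
    proximity α β f = ((f.map (Int.castRingHom ℂ)).roots.map (gg α β)).sum / f.natDegree := rfl

lemma supp_ne {r s : ℕ} {α : Fin r → ℝ} {β : Fin s → ℂ} {f : ℤ[X]}
    (h1 : ∀ j, aeval (α j) f ≠ 0) (h2 : ∀ j, aeval (β j) f ≠ 0) {x : ℂ} (hx : x ∈ Supp α β) :
    aeval x f ≠ 0 := by
  rcases hx with ⟨j, rfl⟩ | ⟨j, rfl | rfl⟩
  · intro h
    apply h1 j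
    have h3 : aeval (α j : ℂ) f = ((aeval (α j) f : ℝ) : ℂ) := aeval_algebraMap_apply ℂ (α j) f
    rw [h3] at h
    exact_mod_cast h
  · exact h2 j
  · intro h
    rw [aeval_conj', map_eq_zero] at h
    exact h2 j h

lemma holds {r s : ℕ} {α : Fin r → ℝ} {β : Fin s → ℂ} (hα : Good α) (hβ : GoodC β) (κ θ : ℝ)
    (hθ : 0 ≤ θ) (h1 : 2 < κ) (h2 : 3 < κ + 2 * θ) : Holds α β κ θ := by
  set ε : ℝ := min (κ - 2) (κ + 2 * θ - 3) with hε
  have hε0 : 0 < ε := lt_min (by linarith) (by linarith)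
  have hε1 : ε ≤ κ - 2 := min_le_left _ _
  have hε2 : ε ≤ κ + 2 * θ - 3 := min_le_right _ _
  obtain ⟨C1, hC1⟩ := quad_all hα hβ ε hε0
  obtain ⟨C2, hC2⟩ := lin_all hα hβ ε hε0
  refine ⟨|C1| + |C2| + Real.log 80, fun x f hf => ?_⟩
  obtain ⟨hirr, hd, hx⟩ := hf
  have hL : 0 ≤ Real.log (mm f) := Real.log_nonneg (one_le_mm hirr.ne_zero)
  have hl80 : 0 ≤ Real.log 80 := Real.log_nonneg (by norm_num)
  have a1 := le_abs_self C1
  have a2 := le_abs_self C2
  have a3 := abs_nonneg C1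
  have a4 := abs_nonneg C2
  have hlD : 0 ≤ lD x := lD_nonneg x
  rcases hd with hd | hd
  · obtain ⟨k1, k2, h3⟩ := hC2 f hd
    refine ⟨fun h => supp_ne k1 k2 h hx, ?_⟩
    have h4 : height f = Real.log (mm f) := by
      unfold height mm
      rw [hd]; simp
    have h5 : proximity α β f ≤ (2 + ε) * Real.log (mm f) + C2 := by
      rw [prox_eq, hd, Nat.cast_one, div_one]
      exact h3
    have h6 : (2 + ε) * Real.log (mm f) ≤ κ * Real.log (mm f) :=
      mul_le_mul_of_nonneg_right (by linarith) hL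
    have h7 : 0 ≤ θ * logDisc x := mul_nonneg hθ hlD
    rw [h4]
    linarith
  · obtain ⟨k1, k2, h3⟩ := hC1 x f hirr hd hx
    refine ⟨fun h => supp_ne k1 k2 h hx, ?_⟩
    have h4 : height f = Real.log (mm f) / 2 := by
      unfold height mm
      rw [hd]; simp
    have h5 : proximity α β f ≤ ((2 + ε) * Real.log (mm f) + lD x + C1) / 2 := by
      rw [prox_eq, hd]
      exact div_le_div_of_nonneg_right h3 (by norm_num)
    have h6 := lD_le f hirr hd x hx
    have h7 : lD x / 2 ≤ θ * lD x + max 0 (1 / 2 - θ) * (Real.log (mm f) + Real.log 80) := by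
      rcases le_total (1 / 2 - θ) 0 with h8 | h8
      · rw [max_eq_left h8]
        nlinarith
      · rw [max_eq_right h8]
        nlinarith
    have h9 : (2 + ε) * (Real.log (mm f) / 2) + max 0 (1 / 2 - θ) * Real.log (mm f) ≤
        κ * (Real.log (mm f) / 2) := by
      rcases le_total (1 / 2 - θ) 0 with h8 | h8
      · rw [max_eq_left h8]
        nlinarith
      · rw [max_eq_right h8]
        nlinarith
    have h10 : max 0 (1 / 2 - θ) * Real.log 80 ≤ Real.log 80 := by
      have : max 0 (1 / 2 - θ) ≤ 1 := max_le (by norm_num) (by linarith)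
      nlinarith
    rw [h4]
    show proximity α β f ≤ κ * (Real.log (mm f) / 2) + θ * lD x + _
    nlinarith

lemma fails {r s : ℕ} (α : Fin r → ℝ) (β : Fin s → ℂ) (hi : ∃ i, (β i).im ≠ 0)
    (hq : ∀ x ∈ Supp α β, ∀ f : ℤ[X], f ≠ 0 → f.natDegree ≤ 2 → aeval x f ≠ 0) (κ θ : ℝ)
    (hθ : 0 ≤ θ) (hor : κ < 2 ∨ κ + 2 * θ < 3) : Fails α β κ θ := by
  obtain ⟨i, hi⟩ := hi
  have hq' : ∀ f : ℤ[X], f ≠ 0 → f.natDegree ≤ 2 →
      (∀ j, aeval (α j) f ≠ 0) ∧ (∀ j, aeval (β j) f ≠ 0) := by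
    intro f h1 h2
    refine ⟨fun j h => ?_, fun j => hq _ (Or.inr ⟨j, Or.inl rfl⟩) f h1 h2⟩
    apply hq _ (Or.inl ⟨j, rfl⟩) f h1 h2
    have h3 : aeval (α j : ℂ) f = ((aeval (α j) f : ℝ) : ℂ) := aeval_algebraMap_apply ℂ (α j) f
    rw [h3, h]
    simp
  intro C H
  rcases hor with hκ | hκ
  · obtain ⟨C1, hC1⟩ := gauss_sharpC hq' i hi
    obtain ⟨x, f, hirr, hd, hx, hD, hR, hs⟩ := hC1 (max (2 * H)
      ((2 * C + C1 + 4 * θ) / (2 - κ) + 1))
    have h4 : height f = Real.log (mm f) / 2 := by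
      unfold height mm
      rw [hd]; simp
    have h5 : proximity α β f = ((f.map (Int.castRingHom ℂ)).roots.map (gg α β)).sum / 2 := by
      rw [prox_eq, hd, Nat.cast_ofNat]
    refine ⟨x, f, ⟨hirr, Or.inr hd, hx⟩, fun h => hq x h f hirr.ne_zero hd.le hx, ?_, ?_⟩
    · rw [h4]
      have := (le_max_left _ _).trans hR
      linarith
    · rw [h4, h5]
      show κ * (Real.log (mm f) / 2) + θ * lD x + C < _
      have h7 : (2 * C + C1 + 4 * θ) / (2 - κ) < Real.log (mm f) := by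
        have := (le_max_right _ _).trans hR
        linarith
      rw [div_lt_iff₀ (by linarith)] at h7
      have h8 : θ * lD x ≤ θ * 2 := mul_le_mul_of_nonneg_left hD hθ
      nlinarith
  · obtain ⟨C1, hC1⟩ := quad_sharpC hq' i hi
    obtain ⟨x, f, hirr, hd, hx, hR, hs⟩ := hC1 (max (2 * H)
      ((2 * (θ * Real.log 80) + 2 * C + C1) / (3 - (κ + 2 * θ)) + 1))
    have h4 : height f = Real.log (mm f) / 2 := by
      unfold height mm
      rw [hd]; simp
    have h5 : proximity α β f = ((f.map (Int.castRingHom ℂ)).roots.map (gg α β)).sum / 2 := by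
      rw [prox_eq, hd, Nat.cast_ofNat]
    have h6 := lD_le f hirr hd x hx
    refine ⟨x, f, ⟨hirr, Or.inr hd, hx⟩, fun h => hq x h f hirr.ne_zero hd.le hx, ?_, ?_⟩
    · rw [h4]
      have := (le_max_left _ _).trans hR
      linarith
    · rw [h4, h5]
      show κ * (Real.log (mm f) / 2) + θ * lD x + C < _
      have h7 : (2 * (θ * Real.log 80) + 2 * C + C1) / (3 - (κ + 2 * θ)) < Real.log (mm f) := by
        have := (le_max_right _ _).trans hR
        linarith
      rw [div_lt_iff₀ (by linarith)] at h7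
      have h8 : θ * lD x ≤ θ * (Real.log (mm f) + Real.log 80) :=
        mul_le_mul_of_nonneg_left h6 hθ
      nlinarith

lemma ae_trans_real (r : ℕ) : ∀ᵐ α : Fin r → ℝ, ∀ j, ∀ f : ℤ[X], f ≠ 0 → aeval (α j) f ≠ 0 := by
  rw [ae_all_iff]
  intro j
  apply ae_eval j (P := fun x : ℝ => ∀ f : ℤ[X], f ≠ 0 → aeval x f ≠ 0)
  have h := (Algebraic.countable ℤ ℝ).ae_notMem (volume : Measure ℝ)
  filter_upwards [h] with x hx f hf h0
  exact hx ⟨f, hf, h0⟩

lemma ae_trans_complex (s : ℕ) :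
    ∀ᵐ β : Fin s → ℂ, ∀ j, ∀ f : ℤ[X], f ≠ 0 → aeval (β j) f ≠ 0 := by
  rw [ae_all_iff]
  intro j
  apply ae_evalC j (P := fun x : ℂ => ∀ f : ℤ[X], f ≠ 0 → aeval x f ≠ 0)
  have h := (Algebraic.countable ℤ ℂ).ae_notMem (volume : Measure ℂ)
  filter_upwards [h] with x hx f hf h0
  exact hx ⟨f, hf, h0⟩

/-- **The height inequality for points of degree at most two on the line and almost every real
divisor with non-real points.** Let `s ≥ 1`. For almost every `(α, β)` in `ℝ ^ r × ℂ ^ s` and all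
real `κ`, `θ` with `θ ≥ 0`: the inequality `m(D, x) ≤ κ h(x) + θ d(x) + O(1)` holds for the algebraic
numbers `x` of degree at most two if `κ > 2` and `κ + 2 θ > 3`; it fails if `κ < 2` or
`κ + 2 θ < 3`. Moreover it fails for these `(κ, θ)` for every single `D` that has a non-real point
and no point of degree at most two over `ℚ`. -/
theorem result (r s : ℕ) (hs : 1 ≤ s) :
    (∀ᵐ p : (Fin r → ℝ) × (Fin s → ℂ), ∀ κ θ : ℝ, 0 ≤ θ →
      (2 < κ → 3 < κ + 2 * θ → Holds p.1 p.2 κ θ) ∧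
      (κ < 2 ∨ κ + 2 * θ < 3 → Fails p.1 p.2 κ θ)) ∧
    (∀ (α : Fin r → ℝ) (β : Fin s → ℂ), (∃ i, (β i).im ≠ 0) →
      (∀ x ∈ Supp α β, ∀ f : ℤ[X], f ≠ 0 → f.natDegree ≤ 2 → aeval x f ≠ 0) →
      ∀ κ θ : ℝ, 0 ≤ θ → (κ < 2 ∨ κ + 2 * θ < 3) → Fails α β κ θ) := by
  refine ⟨?_, fun α β hi hq κ θ hθ hor => fails α β hi hq κ θ hθ hor⟩
  have h1 : ∀ᵐ p : (Fin r → ℝ) × (Fin s → ℂ), Good p.1 ∧
      ∀ j, ∀ f : ℤ[X], f ≠ 0 → aeval (p.1 j) f ≠ 0 :=
    Measure.quasiMeasurePreserving_fst.ae ((ae_good r).and (ae_trans_real r))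
  have h2 : ∀ᵐ p : (Fin r → ℝ) × (Fin s → ℂ), GoodC p.2 ∧
      ∀ j, ∀ f : ℤ[X], f ≠ 0 → aeval (p.2 j) f ≠ 0 :=
    Measure.quasiMeasurePreserving_snd.ae ((ae_goodC s).and (ae_trans_complex s))
  filter_upwards [h1, h2] with p ⟨g1, g2⟩ ⟨g3, g4⟩ κ θ hθ
  refine ⟨fun k1 k2 => holds g1 g3 κ θ hθ k1 k2, fun hor => ?_⟩
  refine fails p.1 p.2 ⟨⟨0, hs⟩, g3.1 _⟩ (fun x hx f hf _ => ?_) κ θ hθ hor
  exact supp_ne (fun j => g2 j f hf) (fun j => g4 j f hf) hx

end Pool.Agent.Results.MP_6f1c57_nt.AlmostEveryComplexDivisor
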