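import Mathlib
import Pool.Agent.X124.CB.Prx

/-!
# The height inequality with Lang's logarithmic error term for cubic points and almost every
divisor of conjugate pairs

`C` is the projective line over `ℚ`, `S = {∞}`,
`D = ([β 0] + [conj (β 0)]) + ... + ([β (s - 1)] + [conj (β (s - 1))])` with complex numbers `β j`.
For almost every `β` (Lebesgue measure) and every constant `C > 1` we prove
`m(D, x) + h_K(x) < d(x) + C log⁺ h(x)` for all algebraic points `x` of degree three, with finitely
many exceptions; here `h_K = - 2 h` and `d(x)` is the logarithmic discriminant of the cubic field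
`ℚ(x)`.

Proof. Every cubic field with a non-real element is the field of a root of an integral binary cubic
form with the discriminant of the field (Delone-Faddeev), which can be reduced by `SL(2, ℤ)`; the
bounds for the coefficients of reduced forms show that the sum of the inverse discriminants of the
complex cubic fields with `|D| ≤ X` is at most `C (log X) ^ 2`. The numbers of one field with
Mahler measure at most `N` in a disc are separated by `c / N`, because the height of the inverse of
a difference is at most `8 N ^ 2`; so there are at most `C N ^ 2` of them, with `C` independent of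
the field. Hence the area of the discs of points that are too close to a non-real cubic number is
summable over dyadic ranges of the height.
-/

set_option autoImplicit false

namespace Pool.Agent.Results.MP_6f1c57_nt.CubicPoints

open Polynomial IntermediateField MeasureTheory ComplexConjugate Real

/-- The absolute logarithmic height `(log M(f)) / deg f` of the roots of an irreducible primitive
`f` (`M` is the Mahler measure). -/
noncomputable def height (f : ℤ[X]) : ℝ :=
  Real.log (f.map (Int.castRingHom ℂ)).mahlerMeasure / f.natDegree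

/-- `m(D, x)` for `D = ∑ ([β j] + [conj (β j)])`: the average over the conjugates `z` of `x`, i.e.
the roots of `f`, of the sum over the points `w` of `D` of
`log (max(1,|z|) max(1,|w|) / |z - w|)`. -/
noncomputable def proximity {s : ℕ} (β : Fin s → ℂ) (f : ℤ[X]) : ℝ :=
  ((f.map (Int.castRingHom ℂ)).roots.map fun z =>
    ∑ j, (Real.log (max 1 ‖z‖ * max 1 ‖β j‖ / ‖z - β j‖) +
      Real.log (max 1 ‖z‖ * max 1 ‖β j‖ / ‖z - conj (β j)‖))).sum / f.natDegree

open Classical in
/-- The logarithmic discriminant `d(x)` of the field `ℚ(x)`. -/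
noncomputable def logDisc (x : ℂ) : ℝ :=
  if _ : NumberField ℚ⟮x⟯ then
    Real.log |(NumberField.discr ℚ⟮x⟯ : ℝ)| / Module.finrank ℚ ℚ⟮x⟯ else 0

/-- `x` is an algebraic number of degree three with minimal polynomial `f` over `ℤ`. -/
def Pt (x : ℂ) (f : ℤ[X]) : Prop := Irreducible f ∧ f.natDegree = 3 ∧ aeval x f = 0

/-- The support of `D`. -/
def Supp {s : ℕ} (β : Fin s → ℂ) : Set ℂ := {x | ∃ j, x = β j ∨ x = conj (β j)}

/-- The cubic points `x` with `m(D, x) - 2 h(x) ≥ d(x) + C log⁺ h(x)`. -/
def Violating {s : ℕ} (β : Fin s → ℂ) (C : ℝ) : Set ℂ :=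
  {x | ∃ f : ℤ[X], Pt x f ∧ logDisc x + C * log⁺ (height f) ≤ proximity β f - 2 * height f}

open Pool.Agent.X124.MV Pool.Agent.X124.MC Pool.Agent.X124.CB Pool.Agent.H990R4.VJ

lemma prox_eq {s : ℕ} (α : Fin 0 → ℝ) (β : Fin s → ℂ) (f : ℤ[X]) :
    proximity β f = ((f.map (Int.castRingHom ℂ)).roots.map (gg α β)).sum / f.natDegree := by
  unfold proximity
  congr 2
  refine Multiset.map_congr rfl fun z _ => ?_
  have h13 : (Finset.univ : Finset (Fin 0)) = ∅ := rfl
  unfold gg
  rw [h13, Finset.sum_empty, zero_add]

lemma supp_ne {s : ℕ} {β : Fin s → ℂ} {f : ℤ[X]} (h2 : ∀ j, aeval (β j) f ≠ 0) {x : ℂ}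
    (hx : x ∈ Supp β) : aeval x f ≠ 0 := by
  obtain ⟨j, rfl | rfl⟩ := hx
  · exact h2 j
  · intro h
    rw [aeval_conj', map_eq_zero] at h
    exact h2 j h

lemma logDisc_eq {x : ℂ} {f : ℤ[X]} (h : Pt x f) :
    logDisc x = Real.log (dK ℚ⟮x⟯) / 3 := by
  have h3 := finrank_cub h.1 h.2.1 h.2.2
  have hK := nf_of h3
  unfold logDisc
  rw [dif_pos hK, h3, dK_eq, Nat.cast_natAbs, Int.cast_abs]
  norm_num

/-- **The height inequality for cubic points with a logarithmic error term.** For almost every `β`
in `ℂ ^ s` no cubic point is in `D`, and for every `C > 1` the inequality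
`m(D, x) + h_K(x) < d(x) + C log⁺ h(x)` holds for all `x` of degree three but finitely many. -/
theorem result (s : ℕ) : ∀ᵐ β : Fin s → ℂ, (∀ (x : ℂ) (f : ℤ[X]), Pt x f → x ∉ Supp β) ∧
    ∀ C : ℝ, 1 < C → (Violating β C).Finite := by
  filter_upwards [ae_goodL s, ae_goodQ s] with β hβ hq
  set α : Fin 0 → ℝ := fun j => j.elim0 with hα
  refine ⟨?_, fun C hC => ?_⟩
  · rintro x f ⟨hirr, hd, hx⟩ hS
    obtain ⟨B, hB⟩ := cub_l hβ.1 hβ.2.1 hq 2 (by norm_num) α
    exact supp_ne (hB x f hirr hd hx).1 hS hx
  obtain ⟨C', hC', hCC⟩ := exists_between hC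
  obtain ⟨B1, hB1⟩ := cub_l hβ.1 hβ.2.1 hq (3 / 2 * C') (by linarith) α
  -- a bound for the height
  set H : ℝ := max (Real.exp ((C' * Real.log 4 + B1 / 3) / (C - C'))) 1 with hH
  have hbound : ∀ (x : ℂ) (f : ℤ[X]), Pt x f →
      logDisc x + C * log⁺ (height f) ≤ proximity β f - 2 * height f →
      (f.map (Int.castRingHom ℂ)).mahlerMeasure ≤ Real.exp (3 * H) := by
    rintro x f hPt hv
    have hPt' := hPt
    obtain ⟨hirr, hd, hx⟩ := hPt
    have hm1 := one_le_mm hirr.ne_zero
    have hm : 0 < mm f := by linarith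
    have hL : 0 ≤ Real.log (mm f) := Real.log_nonneg hm1
    show mm f ≤ _
    rw [← Real.log_le_iff_le_exp hm]
    have h4 : height f = Real.log (mm f) / 3 := by
      unfold height mm
      rw [hd]; norm_num
    have h5 := (hB1 x f hirr hd hx).2
    rw [prox_eq α, hd, logDisc_eq hPt'] at hv
    push_cast at hv
    by_contra hcon
    push Not at hcon
    have h6 : H < height f := by rw [h4]; linarith
    have h7 : 1 < height f := lt_of_le_of_lt (le_max_right _ _) h6
    have h8 : Real.exp ((C' * Real.log 4 + B1 / 3) / (C - C')) < height f :=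
      lt_of_le_of_lt (le_max_left _ _) h6
    have h9 : (C' * Real.log 4 + B1 / 3) / (C - C') < Real.log (height f) := by
      rw [Real.lt_log_iff_exp_lt (by linarith)]; exact h8
    rw [div_lt_iff₀ (by linarith)] at h9
    have h10 : log⁺ (height f) = Real.log (height f) := by
      rw [posLog_eq_log]
      rw [abs_of_pos (by linarith)]
      exact h7.le
    have h11 : Real.log (1 + Real.log (mm f)) ≤ Real.log 4 + Real.log (height f) := by
      rw [← Real.log_mul (by norm_num) (by linarith)]
      apply Real.log_le_log (by linarith)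
      rw [h4] at h7 ⊢
      linarith
    have h12 := mul_le_mul_of_nonneg_left h11 (by linarith : (0 : ℝ) ≤ C')
    rw [h10, h4] at hv
    rw [h4] at h9 h12
    have e : (2 : ℝ) * (3 / 2 * C') = 3 * C' := by ring
    rw [e] at h5
    linarith
  -- finiteness
  have hfin := finite_mahlerMeasure_le 3 ⟨Real.exp (3 * H), (Real.exp_pos _).le⟩
  refine (hfin.biUnion (t := fun f : ℤ[X] => {x : ℂ | f ≠ 0 ∧ aeval x f = 0})
    fun f _ => ?_).subset ?_
  · by_cases hf : f = 0
    · simp [hf]
    · have h0 : f.map (Int.castRingHom ℂ) ≠ 0 := by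
        rwa [Ne, Polynomial.map_eq_zero_iff (RingHom.injective_int _)]
      refine ((f.map (Int.castRingHom ℂ)).roots.toFinset.finite_toSet).subset fun x hx => ?_
      rw [Finset.mem_coe, Multiset.mem_toFinset, mem_roots h0, IsRoot.def, eval_map]
      have := hx.2
      rw [aeval_def] at this
      exact this
  · rintro x ⟨f, hPt, hv⟩
    simp only [Set.mem_iUnion]
    exact ⟨f, ⟨hPt.2.1.le, hbound x f hPt hv⟩, hPt.1.ne_zero, hPt.2.2⟩

end Pool.Agent.Results.MP_6f1c57_nt.CubicPoints
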